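import Pool.Agent.W558.WA.Stms
import Pool.Agent.W499.WD.Base

set_option autoImplicit false
set_option linter.unusedVariables false
set_option linter.unusedSectionVars false

universe u

namespace Pool.Agent.W479.WA

open Pool.Agent.W558 Pool.Agent.W499.WD

/-- The linear algebra in the cotangent space. -/
lemma core {R κ : Type*} [CommRing R] [Field κ] (φ : R →+* κ) (d1 d2 : R → R)
    (a1 : ∀ a b, d1 (a + b) = d1 a + d1 b) (a2 : ∀ a b, d2 (a + b) = d2 a + d2 b)
    (l1 : ∀ a b, d1 (a * b) = a * d1 b + b * d1 a) (l2 : ∀ a b, d2 (a * b) = a * d2 b + b * d2 a)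
    (X Y Q w1 w2 r1 r2 α β γ δ : R) (N M : ℕ) (hX : φ X = 0) (hY : φ Y = 0) (hQ : φ Q = 0)
    (x1 : d1 X = 1) (y1 : d1 Y = 0) (x2 : d2 X = 0) (y2 : d2 Y = 1)
    (e1 : r1 + N * Q = X * d1 Q + X * Y * w1) (e2 : r2 + M * Q = Y * d2 Q + X * Y * w2)
    (n1 : φ r1 = 0) (n2 : φ r2 = 0) (h1 : X = α * r1 + β * r2) (h2 : Y = γ * r1 + δ * r2) :
    φ (d1 Q) ≠ 0 ∧ φ (d2 Q) ≠ 0 ∧ (1 - N - M : κ) ≠ 0 := by
  have c1 := congrArg (fun z => φ (d1 z)) e1
  have c2 := congrArg (fun z => φ (d2 z)) e1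
  have c3 := congrArg (fun z => φ (d1 z)) e2
  have c4 := congrArg (fun z => φ (d2 z)) e2
  have c5 := congrArg (fun z => φ (d1 z)) h1
  have c6 := congrArg (fun z => φ (d2 z)) h1
  have c7 := congrArg (fun z => φ (d1 z)) h2
  have c8 := congrArg (fun z => φ (d2 z)) h2
  simp only [a1, a2, l1, l2, map_add, map_mul, hX, hY, hQ, n1, n2, x1, x2, y1, y2, map_one,
    map_zero, zero_mul, mul_zero, add_zero, zero_add, mul_one, map_natCast] at c1 c2 c3 c4 c5 c6 c7 c8
  generalize φ (d1 Q) = A at *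
  generalize φ (d2 Q) = B at *
  have f1 : φ (d1 r1) = (1 - N) * A := by linear_combination c1
  have f2 : φ (d2 r1) = -(N * B) := by linear_combination c2
  have f3 : φ (d1 r2) = -(M * A) := by linear_combination c3
  have f4 : φ (d2 r2) = (1 - M) * B := by linear_combination c4
  rw [f1, f3] at c5 c7
  rw [f2, f4] at c6 c8
  have hA : A ≠ 0 := by
    rintro rfl
    apply one_ne_zero (α := κ)
    linear_combination c5
  have hB : B ≠ 0 := by
    rintro rfl
    apply one_ne_zero (α := κ)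
    linear_combination c8
  refine ⟨hA, hB, fun h0 => ?_⟩
  have hN : (N : κ) * (φ α - φ β) = 0 := by
    apply mul_left_cancel₀ hB
    rw [mul_zero]
    linear_combination c6 + B * φ β * h0
  have h3 : A * (1 - N) * (φ α - φ β) = 1 := by linear_combination -c5 - A * φ β * h0
  have h4 : φ α - φ β ≠ 0 := by
    intro h5
    rw [h5, mul_zero] at h3
    exact zero_ne_one h3
  have h5 : (N : κ) = 0 := (mul_eq_zero.1 hN).resolve_right h4
  apply one_ne_zero (α := κ)
  linear_combination c8 + (- B * φ γ - B * φ δ * (-1)) * h5 + B * φ δ * h0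

section

variable {k E : Type u} [Field k] [Field E] [Algebra k E] {O : Subalgebra k E} {x y z w : E}

lemma inv_of_not (hx : x ∈ O) (h : ¬ NU O x) : x⁻¹ ∈ O := ((not_NU_iff hx).1 h).2

lemma not_NU_pow (hx : x ∈ O) (h : ¬ NU O x) (n : ℕ) : ¬ NU O (x ^ n) := by
  obtain ⟨h0, h1⟩ := (not_NU_iff hx).1 h
  exact not_NU_of_inv (pow_ne_zero _ h0) (by rw [← inv_pow]; exact O.pow_mem h1 n)

lemma not_NU_add (hloc : ∀ x y, NU O x → NU O y → NU O (x + y)) (h : ¬ NU O x) (h' : NU O y) :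
    ¬ NU O (x + y) := fun h1 => h (by
  have := hloc _ _ h1 h'.neg
  rwa [add_neg_cancel_right] at this)

/-- Elements of the square of the maximal ideal. -/
def Sq (O : Subalgebra k E) (x y z : E) : Prop := ∃ u v, NU O u ∧ NU O v ∧ z = x * u + y * v

lemma Sq_D (hloc : ∀ x y, NU O x → NU O y → NU O (x + y)) (hx : NU O x) (hy : NU O y)
    (D : Derivation k E E) (hD : ∀ a ∈ O, D a ∈ O) (h : Sq O x y z) : NU O (D z) := by
  obtain ⟨u, v, hu, hv, rfl⟩ := h
  rw [map_add, Derivation.leibniz, Derivation.leibniz]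
  simp only [smul_eq_mul]
  exact hloc _ _ (hloc _ _ (hx.mul_right (hD _ hu.mem)) (hu.mul_right (hD _ hx.mem)))
    (hloc _ _ (hy.mul_right (hD _ hv.mem)) (hv.mul_right (hD _ hy.mem)))

lemma NU_nat {p : ℕ} [Fact p.Prime] [CharP k p] {n : ℕ} (h : ¬ p ∣ n) :
    ((n : E))⁻¹ ∈ O ∧ (n : E) ≠ 0 := by
  have h1 : (n : k) ≠ 0 := fun h0 => h ((CharP.cast_eq_zero_iff k p n).1 h0)
  have h2 : ((n : E)) = algebraMap k E n := (map_natCast _ n).symm
  refine ⟨?_, ?_⟩
  · rw [h2, ← map_inv₀]; exact O.algebraMap_mem _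
  · rw [h2, ne_eq, map_eq_zero_iff _ (algebraMap k E).injective]; exact h1

lemma xD (D : Derivation k E E) (hx : D x = 1) (hy : D y = 0) (N M : ℕ) :
    x * D (x ^ N * y ^ M) = N * (x ^ N * y ^ M) := by
  rw [Derivation.leibniz, Derivation.leibniz_pow, Derivation.leibniz_pow, hx, hy]
  simp only [smul_eq_mul, nsmul_eq_mul, mul_zero, mul_one, zero_add]
  rcases N with _ | N
  · simp
  · rw [Nat.add_sub_cancel, pow_succ]; ring

lemma Dp {p : ℕ} [CharP E p] (D : Derivation k E E) (b : E) : D (b ^ p) = 0 := by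
  rw [Derivation.leibniz_pow]
  simp [CharP.cast_eq_zero]

/-- Comparison of the residuals. -/
lemma resid {p : ℕ} [hp : Fact p.Prime] [CharP E p] (D : Derivation k E E)
    (hD : ∀ a ∈ O, D a ∈ O) (hx : x ∈ O) (hy : y ∈ O)
    (hx1 : D x = 1) (hy1 : D y = 0) {N M : ℕ} (hN : 1 ≤ N) (hM : 1 ≤ M) {f1 b : E}
    (hb : b * (x ^ (N / p) * y ^ (M / p)) ∈ O) : ∃ w ∈ O,
    (x * D f1) * (x ^ N * y ^ M) + N * ((f1 - (b ^ p - b)) * (x ^ N * y ^ M)) =
      x * D ((f1 - (b ^ p - b)) * (x ^ N * y ^ M)) + x * y * w := by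
  have hN' : N / p < N := Nat.div_lt_self hN hp.out.one_lt
  have hM' : M / p < M := Nat.div_lt_self hM hp.out.one_lt
  have hA := xD D hx1 hy1 (N / p) (M / p)
  have hX := xD D hx1 hy1 N M
  have hXZ : x ^ N * y ^ M = (x ^ (N / p) * y ^ (M / p)) *
      ((x * y) * (x ^ (N - N / p - 1) * y ^ (M - M / p - 1))) := by
    have e1 : x ^ N = x ^ (N / p) * x * x ^ (N - N / p - 1) := by
      rw [← pow_succ, ← pow_add]; congr 1; omega
    have e2 : y ^ M = y ^ (M / p) * y * y ^ (M - M / p - 1) := by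
      rw [← pow_succ, ← pow_add]; congr 1; omega
    rw [e1, e2]; ring
  have hV : x ^ (N - N / p - 1) * y ^ (M - M / p - 1) ∈ O :=
    O.mul_mem (O.pow_mem hx _) (O.pow_mem hy _)
  have hbz : (x * D b) * (x ^ (N / p) * y ^ (M / p)) =
      x * D (b * (x ^ (N / p) * y ^ (M / p))) - ((N / p : ℕ) : E) *
        (b * (x ^ (N / p) * y ^ (M / p))) := by
    rw [Derivation.leibniz]
    simp only [smul_eq_mul]
    linear_combination b * (- hA)
  generalize hZ : x ^ (N / p) * y ^ (M / p) = Z at *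
  generalize hVd : x ^ (N - N / p - 1) * y ^ (M - M / p - 1) = V at *
  generalize hXd : x ^ N * y ^ M = X at *
  refine ⟨-((x * D (b * Z) - ((N / p : ℕ) : E) * (b * Z)) * V), O.neg_mem (O.mul_mem
    (O.sub_mem (O.mul_mem hx (hD _ hb)) (O.mul_mem (natCast_mem O _) hb)) hV), ?_⟩
  have e3 : D ((f1 - (b ^ p - b)) * X) = (f1 - (b ^ p - b)) * D X + X * (D f1 + D b) := by
    rw [Derivation.leibniz, map_sub, map_sub, Dp (p := p)]
    simp only [smul_eq_mul]; ring
  rw [e3, ← hbz]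
  linear_combination (-(f1 - (b ^ p - b))) * hX - x * D b * hXZ

lemma Sq_add (hloc : ∀ x y, NU O x → NU O y → NU O (x + y)) (h : Sq O x y z) (h' : Sq O x y w) :
    Sq O x y (z + w) := by
  obtain ⟨u, v, hu, hv, rfl⟩ := h
  obtain ⟨u', v', hu', hv', rfl⟩ := h'
  exact ⟨u + u', v + v', hloc _ _ hu hu', hloc _ _ hv hv', by ring⟩

lemma Sq_term (h : Par O x y) {g : E} (hg : g ∈ O) {i j : ℕ} (hij : 2 ≤ i + j) :
    Sq O x y (g * x ^ i * y ^ j) := by
  have hx := h.pu.mem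
  have hy := h.pv.mem
  rcases i with _ | i
  · obtain ⟨j, rfl⟩ : ∃ l, j = l + 2 := ⟨j - 2, by omega⟩
    refine ⟨0, g * y ^ (j + 1), NU.zero, ?_, by ring⟩
    rw [pow_succ, ← mul_assoc]
    exact h.pv.mul_left (O.mul_mem hg (O.pow_mem hy j))
  · refine ⟨g * x ^ i * y ^ j, 0, ?_, NU.zero, by ring⟩
    rcases i with _ | i
    · obtain ⟨j, rfl⟩ : ∃ l, j = l + 1 := ⟨j - 1, by omega⟩
      have e : g * x ^ 0 * y ^ (j + 1) = (g * y ^ j) * y := by ring
      rw [e]; exact h.pv.mul_left (O.mul_mem hg (O.pow_mem hy j))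
    · have e : g * x ^ (i + 1) * y ^ j = (g * x ^ i * y ^ j) * x := by ring
      rw [e]
      exact h.pu.mul_left (O.mul_mem (O.mul_mem hg (O.pow_mem hx i)) (O.pow_mem hy j))

lemma Sq_NU (h : Par O x y) (hloc : ∀ x y, NU O x → NU O y → NU O (x + y)) (hz : Sq O x y z) :
    NU O z := by
  obtain ⟨u, v, hu, hv, rfl⟩ := hz
  exact hloc _ _ (h.pu.mul_right hu.mem) (h.pv.mul_right hv.mem)

lemma NU_sum (hloc : ∀ x y, NU O x → NU O y → NU O (x + y)) {ι : Type*} (s : Finset ι) (f : ι → E)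
    (hf : ∀ i ∈ s, NU O (f i)) : NU O (∑ i ∈ s, f i) :=
  Finset.sum_induction f (NU O) hloc NU.zero hf

/-- The form of `f` at the point. -/
theorem reduce {p : ℕ} [hp : Fact p.Prime] [PerfectField k] [CharP k p]
    (hder : WD_der.{u}) (hthb : WD_thb.{u}) (ht : WA_t.{u})
    (htr : Algebra.trdeg k E = 2) {f : E} {N M : ℕ} (hpt : Pt2 O) (h : Par O x y)
    (hN : 1 ≤ N) (hM : 1 ≤ M) (hI : IM p O x y f N M) :
    ¬ p ∣ (N + M - 1) ∧ ∃ a g0 g1 : E, g0 ∈ O ∧ g1 ∈ O ∧ ¬ NU O g0 ∧ ¬ NU O g1 ∧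
      (f - (a ^ p - a)) * (x ^ N * y ^ M) = g0 * x + g1 * y := by
  have hCE : CharP E p := charP_of_injective_algebraMap (algebraMap k E).injective p
  obtain ⟨D1, D2, a1, a2, b1, b2, b3, b4, b5⟩ := hder k E htr O x y hpt h
  obtain ⟨-, t2, -⟩ := hthb k E htr O x y D1 D2 hpt h a1 a2 b1 b2 b3 b4 b5
  obtain ⟨a, hf1, hI1, hI2⟩ := hI
  obtain ⟨ρ, g, b, hρ, hg, hb, heq, hcase⟩ := ht p k E htr O x y hpt h _ N M hf1
  obtain ⟨A0, hA0, hpA⟩ := hpt
  have hloc := hpA.loc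
  have hx := h.pu.mem
  have hy := h.pv.mem
  generalize hf1d : f - (a ^ p - a) = f1 at *
  have hq1 : (f1 - (b ^ p - b)) * (x ^ N * y ^ M) ∈ O := by
    rw [heq]
    exact O.sum_mem fun j _ => O.mul_mem (O.mul_mem (hg j) (O.pow_mem hx _)) (O.pow_mem hy _)
  obtain ⟨w1, hw1, e1⟩ := resid (p := p) D1 a1 hx hy b1 b2 hN hM (f1 := f1) hb
  obtain ⟨w2, hw2, e2⟩ := resid (p := p) D2 a2 hy hx b4 b3 hM hN (f1 := f1) (b := b)
    (by rw [mul_comm (y ^ _)]; exact hb)
  rw [mul_comm (y ^ M)] at e2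
  have hr1 : NU O ((x * D1 f1) * (x ^ N * y ^ M)) := by
    have := hI1 _ ((t2 (x • D1)).2 ⟨1, O.one_mem, 0, O.zero_mem, by simp⟩)
    simpa only [Derivation.smul_apply, smul_eq_mul] using this
  have hr2 : NU O ((y * D2 f1) * (x ^ N * y ^ M)) := by
    have := hI1 _ ((t2 (y • D2)).2 ⟨0, O.zero_mem, 1, O.one_mem, by simp⟩)
    simpa only [Derivation.smul_apply, smul_eq_mul] using this
  have hgen : ∀ z, NU O z → ∃ α ∈ O, ∃ β ∈ O, z = α * ((x * D1 f1) * (x ^ N * y ^ M)) +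
      β * ((y * D2 f1) * (x ^ N * y ^ M)) := by
    intro z hz
    obtain ⟨θ, hθ, h1⟩ := hI2 z hz
    obtain ⟨α, hα, β, hβ, rfl⟩ := (t2 θ).1 hθ
    refine ⟨α, hα, β, hβ, ?_⟩
    rw [← h1]
    simp only [Derivation.add_apply, Derivation.smul_apply, smul_eq_mul]
    ring
  obtain ⟨α, hα, β, hβ, hxx⟩ := hgen x h.pu
  obtain ⟨γ, hγ, δ, hδ, hyy⟩ := hgen y h.pv
  generalize hqd : (f1 - (b ^ p - b)) * (x ^ N * y ^ M) = q at *
  generalize hr1d : (x * D1 f1) * (x ^ N * y ^ M) = r1 at *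
  generalize hr2d : (y * D2 f1) * (x ^ N * y ^ M) = r2 at *
  -- `q` is not a unit
  have hqN : ∀ {n : ℕ} {r s D t w : E}, NU O r → NU O s → D ∈ O → NU O t → w ∈ O →
      r + (n : E) * q = s * D + s * t * w → ¬ p ∣ n → NU O q := by
    intro n r s D t w hr hs hD ht' hw he hn
    obtain ⟨i1, i2⟩ := NU_nat (O := O) (k := k) (E := E) (p := p) hn
    have e3 : q = (n : E)⁻¹ * ((s * D + s * t * w) + -r) := by
      rw [← he]; field_simp; ring
    rw [e3]
    refine NU.mul_left (hloc _ _ (hloc _ _ (hs.mul_right hD) ?_) hr.neg) i1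
    exact (hs.mul_right ht'.mem).mul_right hw
  have hqNU : NU O q := by
    rcases Nat.eq_zero_or_pos ρ with h0 | h0
    · subst h0
      rcases hcase with h1 | ⟨j, hj, hj2, hj3⟩
      · omega
      · obtain rfl : j = 0 := by omega
        by_cases hpN : p ∣ N
        · have hpM : ¬ p ∣ M := by
            intro hpM
            apply hj3
            have i1 : (p : ℤ) ∣ N := by exact_mod_cast hpN
            have i2 : (p : ℤ) ∣ M := by exact_mod_cast hpM
            constructor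
            · simpa using i1
            · simpa using i2
          refine hqN hr2 h.pv (a2 _ hq1) h.pu hw2 ?_ hpM
          rw [e2]
        · exact hqN hr1 h.pu (a1 _ hq1) h.pv hw1 e1 hpN
    · rw [heq]
      refine NU_sum hloc _ _ fun j hj => ?_
      rw [Finset.mem_range] at hj
      rcases Nat.eq_zero_or_pos j with h2 | h2
      · subst h2
        obtain ⟨ρ, rfl⟩ : ∃ l, ρ = l + 1 := ⟨ρ - 1, by omega⟩
        have e : g 0 * x ^ (ρ + 1 - 0) * y ^ 0 = (g 0 * x ^ ρ) * x := by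
          rw [Nat.sub_zero]; ring
        rw [e]; exact h.pu.mul_left (O.mul_mem (hg 0) (O.pow_mem hx _))
      · obtain ⟨j, rfl⟩ : ∃ l, j = l + 1 := ⟨j - 1, by omega⟩
        have e : g (j + 1) * x ^ (ρ - (j + 1)) * y ^ (j + 1) =
            (g (j + 1) * x ^ (ρ - (j + 1)) * y ^ j) * y := by ring
        rw [e]
        exact h.pv.mul_left (O.mul_mem (O.mul_mem (hg _) (O.pow_mem hx _)) (O.pow_mem hy _))
  -- linear algebra
  have hlr : IsLocalRing O := isLocalRing_of_loc hloc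
  have hφ : ∀ (z : E) (hz : z ∈ O), NU O z → IsLocalRing.residue O ⟨z, hz⟩ = 0 := fun z hz h1 =>
    residue_eq_zero_NU.2 h1
  have key := core (IsLocalRing.residue O) (fun z => ⟨D1 z, a1 z z.2⟩) (fun z => ⟨D2 z, a2 z z.2⟩)
    (fun z w => Subtype.ext (map_add D1 (z : E) w)) (fun z w => Subtype.ext (map_add D2 (z : E) w))
    (fun z w => Subtype.ext (D1.leibniz (z : E) w)) (fun z w => Subtype.ext (D2.leibniz (z : E) w))
    ⟨x, hx⟩ ⟨y, hy⟩ ⟨q, hq1⟩ ⟨w1, hw1⟩ ⟨w2, hw2⟩ ⟨r1, hr1.mem⟩ ⟨r2, hr2.mem⟩ ⟨α, hα⟩ ⟨β, hβ⟩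
    ⟨γ, hγ⟩ ⟨δ, hδ⟩ N M (hφ _ _ h.pu) (hφ _ _ h.pv) (hφ _ _ hqNU) (Subtype.ext b1)
    (Subtype.ext b2) (Subtype.ext b3) (Subtype.ext b4)
    (Subtype.ext (by push_cast; exact e1))
    (Subtype.ext (by push_cast; rw [mul_comm x y]; exact e2))
    (hφ _ _ hr1) (hφ _ _ hr2) (Subtype.ext (by push_cast; exact hxx))
    (Subtype.ext (by push_cast; exact hyy))
  obtain ⟨k1, k2, k3⟩ := key
  have k1' : ¬ NU O (D1 q) := fun h1 => k1 (residue_eq_zero_NU.2 h1)
  have k2' : ¬ NU O (D2 q) := fun h1 => k2 (residue_eq_zero_NU.2 h1)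
  have hρ1 : ρ = 1 := by
    have h0 : ρ ≠ 0 := by
      intro h0
      subst h0
      rcases hcase with h1 | ⟨j, hj, hj2, hj3⟩
      · omega
      · obtain rfl : j = 0 := by omega
        apply hj2
        rw [heq] at hqNU
        simpa using hqNU
    by_contra hne
    apply k1'
    refine Sq_D hloc h.pu h.pv D1 a1 ?_
    rw [heq]
    refine Finset.sum_induction _ (Sq O x y) (fun _ _ => Sq_add hloc)
      ⟨0, 0, NU.zero, NU.zero, by ring⟩ fun j hj => ?_
    rw [Finset.mem_range] at hj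
    exact Sq_term h (hg j) (by omega)
  subst hρ1
  have hq2 : q = g 0 * x + g 1 * y := by
    rw [heq, Finset.sum_range_succ, Finset.sum_range_one]; simp
  refine ⟨?_, a + b, g 0, g 1, hg 0, hg 1, ?_, ?_, ?_⟩
  · intro hdvd
    apply k3
    obtain ⟨c, hc⟩ := hdvd
    have hpO : ((p : ℕ) : O) = 0 := Subtype.ext (by push_cast; exact CharP.cast_eq_zero E p)
    have hpκ : ((p : ℕ) : IsLocalRing.ResidueField O) = 0 := by
      rw [← map_natCast (IsLocalRing.residue O), hpO, map_zero]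
    have h1 : ((N + M - 1 : ℕ) : IsLocalRing.ResidueField O) = 0 := by
      rw [hc, Nat.cast_mul, hpκ, zero_mul]
    rw [Nat.cast_sub (by omega)] at h1
    push_cast at h1
    linear_combination -h1
  · intro h1
    apply k1'
    rw [hq2, map_add, Derivation.leibniz, Derivation.leibniz, b1, b2]
    simp only [smul_eq_mul, mul_one, mul_zero, zero_add]
    exact hloc _ _ (hloc _ _ h1 (h.pu.mul_right (a1 _ (hg 0)))) (h.pv.mul_right (a1 _ (hg 1)))
  · intro h1
    apply k2'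
    rw [hq2, map_add, Derivation.leibniz, Derivation.leibniz, b3, b4]
    simp only [smul_eq_mul, mul_one, mul_zero, zero_add]
    exact hloc _ _ (h.pu.mul_right (a2 _ (hg 0))) (hloc _ _ h1 (h.pv.mul_right (a2 _ (hg 1))))
  · rw [← hq2, ← hqd, ← hf1d]
    congr 1
    rw [add_pow_char]
    ring

end

theorem main (hder : WD_der.{u}) (hthb : WD_thb.{u}) (hod : WD_od.{u}) (hqp : WD_qp.{u})
    (hwb : WA_wb.{u}) (ht : WA_t.{u}) : WA_a4.{u} := by
  intro p hp k E _ _ _ _ _ htr O O' x y f N M hpt hpt' h hq hN hM hI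
  obtain ⟨hpN, a, g0, g1, hg0, hg1, u0, u1, hf⟩ := reduce hder hthb ht htr hpt h hN hM hI
  obtain ⟨D1, D2, a1, a2, b1, b2, b3, b4, b5⟩ := hder k E htr O x y hpt h
  have t3 := ((hthb k E htr O x y D1 D2 hpt h a1 a2 b1 b2 b3 b4 b5).2.2 O' hpt').1 hq
  have t4 := ((hthb k E htr O y x D2 D1 hpt (Par_symm h) a2 a1 b4 b3 b2 b1
    (fun D => by rw [add_comm]; exact b5 D)).2.2 O' hpt').2.1 hq
  have hle := hq.le
  have hloc := hq.loc
  have hx0 := h.u0
  have hy0 := h.v0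
  have hxO := h.pu.mem
  have hyO := h.pv.mem
  have hxN : NU O' x := hq.nu x h.pu
  have hs : y / x ∈ O' := by rw [div_eq_mul_inv]; exact hq.div y h.pv
  obtain ⟨s, hsd⟩ : ∃ s, s = y / x := ⟨_, rfl⟩
  have hys : y = x * s := by rw [hsd]; field_simp
  have hs0 : s ≠ 0 := by rw [hsd]; exact div_ne_zero hy0 hx0
  rw [← hsd] at hs t4 ⊢
  obtain ⟨n, hn⟩ : ∃ n, N + M - 1 = n := ⟨_, rfl⟩
  have hNM : N + M = n + 1 := by omega
  rw [hn] at hpN
  obtain ⟨i1, i2⟩ := NU_nat (O := O') (k := k) (E := E) (p := p) hpN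
  obtain ⟨F, hF⟩ : ∃ F, f - (a ^ p - a) = F := ⟨_, rfl⟩
  rw [hF] at hf
  have key : F * (x ^ n * s ^ M) = g0 + g1 * s := by
    apply mul_left_cancel₀ hx0
    have e1 : x ^ N * y ^ M = x * (x ^ n * s ^ M) := by
      rw [hys, mul_pow, ← mul_assoc, ← pow_add, hNM, pow_succ]; ring
    rw [e1] at hf
    rw [show x * (F * (x ^ n * s ^ M)) = F * (x * (x ^ n * s ^ M)) by ring, hf, hys]
    ring
  -- derivatives of `s`
  have s2 : x * D2 s = 1 := by
    have := congrArg D2 hys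
    rw [Derivation.leibniz, b4, b3] at this
    simp only [smul_eq_mul, mul_zero, add_zero] at this
    exact this.symm
  have s1 : x * D1 s = -s := by
    have := congrArg D1 hys
    rw [Derivation.leibniz, b2, b1] at this
    simp only [smul_eq_mul, mul_one] at this
    linear_combination -this
  have g0' := hle hg0
  have g1' := hle hg1
  have u0' : ¬ NU O' g0 := not_NU_of_inv ((not_NU_iff hg0).1 u0).1 (hle ((not_NU_iff hg0).1 u0).2)
  have u1' : ¬ NU O' g1 := not_NU_of_inv ((not_NU_iff hg1).1 u1).1 (hle ((not_NU_iff hg1).1 u1).2)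
  have hG : g0 + g1 * s ∈ O' := O'.add_mem g0' (O'.mul_mem g1' hs)
  -- the derivation `θ1`
  have th1 : ∀ g ∈ O, NU O' (x * D1 g + y * D2 g) := by
    intro g hg
    rw [hys, show x * D1 g + x * s * D2 g = x * (D1 g + s * D2 g) by ring]
    exact hxN.mul_right (O'.add_mem (hle (a1 g hg)) (O'.mul_mem hs (hle (a2 g hg))))
  have hK : (x * D1 F + y * D2 F) * (x ^ n * s ^ M) = ((x * D1 g0 + y * D2 g0) +
      s * (x * D1 g1 + y * D2 g1)) + -((n : E) * (g0 + g1 * s)) := by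
    have d1 := congrArg D1 key
    have d2 := congrArg D2 key
    rw [Derivation.leibniz, Derivation.leibniz, Derivation.leibniz_pow, Derivation.leibniz_pow,
      map_add, Derivation.leibniz, b1] at d1
    rw [Derivation.leibniz, Derivation.leibniz, Derivation.leibniz_pow, Derivation.leibniz_pow,
      map_add, Derivation.leibniz, b3] at d2
    simp only [smul_eq_mul, nsmul_eq_mul, mul_one, mul_zero, add_zero] at d1 d2
    have e1 : (n : E) * x ^ (n - 1) * x = n * x ^ n := by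
      rcases n with _ | n
      · simp
      · rw [Nat.add_sub_cancel, pow_succ]; ring
    have s3 : y * D2 s = s := by rw [hys]; linear_combination s * s2
    linear_combination x * d1 + y * d2 - F * s ^ M * e1 - n * key +
      (g1 - F * x ^ n * M * s ^ (M - 1)) * (s1 + s3)
  have hθ1 : ∀ g, (x • D1 + y • D2) g = x * D1 g + y * D2 g := fun g => by
    simp [Derivation.add_apply, Derivation.smul_apply, smul_eq_mul]
  have hxcl : ∀ b : Set E, x ∈ b → x ^ n ∈ Submonoid.closure b := fun b hb =>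
    pow_mem (Submonoid.subset_closure hb) n
  have hxu : x ∈ uo O' x := ⟨1, O'.one_mem, one_ne_zero, by rw [inv_one]; exact O'.one_mem,
    by ring⟩
  have hsu : s ∈ uo O' s := ⟨1, O'.one_mem, one_ne_zero, by rw [inv_one]; exact O'.one_mem,
    by ring⟩
  have hA : NU O' ((x * D1 g0 + y * D2 g0) + s * (x * D1 g1 + y * D2 g1)) :=
    hloc _ _ (th1 g0 hg0) ((th1 g1 hg1).mul_left hs)
  have hnu : ¬ NU O' (n : E) := not_NU_of_inv i2 i1
  have hnO : (n : E) ∈ O' := natCast_mem O' n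
  refine ⟨fun hsi => ?_, fun hpar => ?_⟩
  · -- noncorner
    have hsM : (s⁻¹) ^ M ∈ O' := O'.pow_mem hsi M
    have hsM0 : (s⁻¹) ^ M * s ^ M = 1 := by
      rw [← mul_pow, inv_mul_cancel₀ hs0, one_pow]
    have hsMu : ¬ NU O' ((s⁻¹) ^ M) := not_NU_of_inv (pow_ne_zero _ (inv_ne_zero hs0)) (by
      rw [← inv_pow, inv_inv]; exact O'.pow_mem hs M)
    have hFx : F * x ^ n = (s⁻¹) ^ M * (g0 + g1 * s) := by
      rw [← key]; linear_combination (-F * x ^ n) * hsM0
    refine ⟨a, x ^ n, hxcl _ hxu, ?_, Or.inr ?_⟩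
    · rw [hF, hFx]; exact O'.mul_mem hsM hG
    · rw [hF]
      by_cases hu : NU O' (g0 + g1 * s)
      · have e4 : (x • D2) F * x ^ n = ((s⁻¹) ^ M * (x * (D2 g0 + s * D2 g1)) +
            -((M : E) * s⁻¹ * (F * x ^ n))) + (s⁻¹) ^ M * g1 := by
          have d2 := congrArg D2 key
          rw [Derivation.leibniz, Derivation.leibniz, Derivation.leibniz_pow,
            Derivation.leibniz_pow, map_add, Derivation.leibniz, b3] at d2
          simp only [smul_eq_mul, nsmul_eq_mul, mul_zero, add_zero] at d2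
          rw [Derivation.smul_apply, smul_eq_mul]
          obtain ⟨m, rfl⟩ : ∃ m, M = m + 1 := ⟨M - 1, by omega⟩
          rw [Nat.add_sub_cancel] at d2
          have e5 : (s⁻¹) ^ (m + 1) * s ^ m = s⁻¹ := by
            rw [pow_succ, mul_right_comm, ← mul_pow, inv_mul_cancel₀ hs0, one_pow, one_mul]
          linear_combination (s⁻¹) ^ (m + 1) * x * d2 - x * D2 F * x ^ n * hsM0 -
            F * x ^ n * ((m + 1 : ℕ) : E) * x * D2 s * e5 +
            ((s⁻¹) ^ (m + 1) * g1 - F * x ^ n * ((m + 1 : ℕ) : E) * s⁻¹) * s2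
        have n1 : NU O' ((s⁻¹) ^ M * (x * (D2 g0 + s * D2 g1)) +
            -((M : E) * s⁻¹ * (F * x ^ n))) := by
          refine hloc _ _ ?_ (NU.neg ?_)
          · exact (hxN.mul_right (O'.add_mem (hle (a2 _ hg0))
              (O'.mul_mem hs (hle (a2 _ hg1))))).mul_left hsM
          · rw [hFx]
            exact (hu.mul_left hsM).mul_left (O'.mul_mem (natCast_mem O' M) hsi)
        have n2 : ¬ NU O' ((s⁻¹) ^ M * g1) := not_NU_mul hsM g1' hsMu u1'
        refine ⟨x • D2, (t3 _).2 ⟨0, O'.zero_mem, 1, O'.one_mem, by simp⟩, ?_, ?_⟩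
        · rw [e4]; exact O'.add_mem n1.mem (O'.mul_mem hsM g1')
        · rw [e4, add_comm]; exact not_NU_add hloc n2 n1
      · have e4 : (x • D1 + y • D2) F * x ^ n = (s⁻¹) ^ M * ((x * D1 g0 + y * D2 g0) +
            s * (x * D1 g1 + y * D2 g1)) + -((n : E) * ((s⁻¹) ^ M * (g0 + g1 * s))) := by
          rw [hθ1]
          linear_combination (s⁻¹) ^ M * hK - (x * D1 F + y * D2 F) * x ^ n * hsM0
        have n1 : NU O' ((s⁻¹) ^ M * ((x * D1 g0 + y * D2 g0) +
            s * (x * D1 g1 + y * D2 g1))) := hA.mul_left hsM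
        have n2 : ¬ NU O' (-((n : E) * ((s⁻¹) ^ M * (g0 + g1 * s)))) := fun h1 =>
          not_NU_mul hnO (O'.mul_mem hsM hG) hnu (not_NU_mul hsM hG hsMu hu)
            (by have := h1.neg; rwa [neg_neg] at this)
        refine ⟨x • D1 + y • D2, (t3 _).2 ⟨1, O'.one_mem, 0, O'.zero_mem, by simp⟩, ?_, ?_⟩
        · rw [e4]
          exact O'.add_mem n1.mem (O'.neg_mem (O'.mul_mem hnO (O'.mul_mem hsM hG)))
        · rw [e4, add_comm]; exact not_NU_add hloc n2 n1
  · -- corner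
    have hu : ¬ NU O' (g0 + g1 * s) := not_NU_add hloc u0' (hpar.pv.mul_left g1')
    obtain ⟨bb, hbb⟩ : ∃ bb : Set E, bb = uo O' x ∪ uo O' s := ⟨_, rfl⟩
    have hxb : x ∈ bb := by rw [hbb]; exact Or.inl hxu
    have hsb : s ∈ bb := by rw [hbb]; exact Or.inr hsu
    have hcl : x ^ n * s ^ M ∈ Submonoid.closure bb :=
      Submonoid.mul_mem _ (hxcl bb hxb) (Submonoid.pow_mem _ (Submonoid.subset_closure hsb) M)
    rw [hbb] at hcl
    refine ⟨a, x ^ n * s ^ M, hcl, ?_, Or.inr ?_⟩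
    · rw [hF, key]; exact hG
    · rw [hF]
      have n2 : ¬ NU O' (-((n : E) * (g0 + g1 * s))) := fun h1 =>
        not_NU_mul hnO hG hnu hu (by have := h1.neg; rwa [neg_neg] at this)
      refine ⟨x • D1 + y • D2, (t4 _).2 ⟨1, O'.one_mem, 1, O'.one_mem, by
        rw [one_smul, one_smul, add_comm]⟩, ?_, ?_⟩
      · rw [hθ1, hK]; exact O'.add_mem hA.mem (O'.neg_mem (O'.mul_mem hnO hG))
      · rw [hθ1, hK, add_comm]; exact not_NU_add hloc n2 hA

end Pool.Agent.W479.WA
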